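import Mathlib
import Pool.Agent.H447R2.ML.Law

set_option autoImplicit false

/-!
# Metric finiteness for the primes `n ^ n + 1`

For reals `x, β > 0` and `n ≥ 1` let `W x β n` be the `n`-rough part (the product, with
multiplicity, of the prime factors larger than `n`) of the smallest integer larger than
`β (x n) ^ n`.  For `x = β = 1` and `n = 2 ^ j` (only such `n > 1` can give a prime `n ^ n + 1`)
this is `n ^ n + 1` itself.  We prove that for every `β` and almost every `x`, and for every `x`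
and almost every `β`, only finitely many `W x β (2 ^ j)` are prime, with a bound for the measure of
the exceptional sets.
-/

namespace Pool.Agent.Results.MP_a70bdc_nt.MetricFiniteness

open Filter Topology MeasureTheory

open Pool.Agent.H447R2.ML (Good LL gg fl)

/-- The product, with multiplicity, of the prime factors of `k` that are larger than `n`. -/
def roughPart (n k : ℕ) : ℕ := (k.primeFactorsList.filter (fun r => n < r)).prod

/-- The `n`-rough part of the smallest integer that is larger than `β * (x * n) ^ n`. -/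
noncomputable def W (x β : ℝ) (n : ℕ) : ℕ := roughPart n (⌊β * (x * n) ^ n⌋₊ + 1)

lemma roughPart_eq : roughPart = Pool.Agent.H305R2.roughPart := rfl

lemma W_one (j : ℕ) (hj : 1 ≤ j) : W 1 1 (2 ^ j) = (2 ^ j) ^ (2 ^ j) + 1 := by
  have h1 : ⌊(1 : ℝ) * (1 * ((2 ^ j : ℕ) : ℝ)) ^ (2 ^ j)⌋₊ = (2 ^ j) ^ (2 ^ j) := by
    rw [one_mul, one_mul]
    exact_mod_cast Nat.floor_natCast (R := ℝ) ((2 ^ j) ^ (2 ^ j))
  unfold W
  rw [h1, roughPart_eq]
  have heven : Even (2 ^ j) := (Nat.even_pow.2 ⟨even_two, by omega⟩)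
  refine Pool.Agent.H447R2.ML.roughPart_eq_self (Nat.succ_ne_zero _) fun q hq hdvd => ?_
  have hodd : Odd ((2 ^ j) ^ (2 ^ j) + 1) := by
    refine Even.add_one ?_
    exact (Nat.even_pow.2 ⟨heven, (Nat.two_pow_pos j).ne'⟩)
  have hq2 : q ≠ 2 := by
    rintro rfl
    exact (Nat.not_even_iff_odd.2 hodd) (even_iff_two_dvd.2 hdvd)
  obtain ⟨k, hk⟩ := Nat.pow_pow_add_primeFactors_one_lt hq hq2 hdvd
  have hk0 : k ≠ 0 := by
    rintro rfl
    rw [zero_mul, zero_add] at hk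
    exact hq.one_lt.ne' hk
  have h3 : 2 ^ j < k * 2 ^ (j + 1) + 1 := by
    have : 2 ^ j ≤ k * 2 ^ (j + 1) := by
      rw [pow_succ]
      nlinarith [Nat.two_pow_pos j, Nat.pos_of_ne_zero hk0]
    omega
  omega

/-- the constant perturbation -/
def one' : ℕ → ℝ := fun _ => 1

lemma good : Good (fl one') 0 := by
  refine Pool.Agent.H447R2.ML.good_fl (C := 1) le_rfl one_pos fun p => ?_
  simp [one']

/-- the rough part attached to a real value -/
noncomputable def R (j : ℕ) (z : ℝ) : ℕ := roughPart (2 ^ j) (⌊z⌋₊ + 1)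

lemma prime_iff (j : ℕ) (y : ℝ) : (R j (Real.exp y)).Prime ↔ fl one' (2 ^ j) y = 1 := by
  have e2 : ⌊Real.exp y + 1⌋₊ = ⌊Real.exp y⌋₊ + 1 := Nat.floor_add_one (Real.exp_pos y).le
  unfold fl R
  rw [one', e2, roughPart_eq]
  constructor
  · intro h
    rw [if_pos h]
  · intro h
    by_contra hc
    rw [if_neg hc] at h
    exact zero_ne_one h

lemma scale {g : ℝ → ℝ} {u v : ℝ} (huv : u ≤ v) {p : ℕ} (hp : 0 < p) (b : ℝ) :
    ∫ τ in Set.Ioc u v, g (p * τ + b) = (∫ y in Set.Ioc (p * u + b) (p * v + b), g y) / p := by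
  have hp0 : (0 : ℝ) < p := by exact_mod_cast hp
  have h1 : (p : ℝ) * u + b ≤ p * v + b := by
    have := mul_le_mul_of_nonneg_left huv hp0.le
    linarith
  rw [← intervalIntegral.integral_of_le huv, ← intervalIntegral.integral_of_le h1,
    intervalIntegral.integral_comp_mul_add (fun y => g y) hp0.ne' b, smul_eq_mul]
  field_simp

/-- the set of parameters in `(u, v]` with a prime `j`-th term -/
def A (a : ℕ → ℕ) (c : ℕ → ℝ) (u v : ℝ) (j : ℕ) : Set ℝ :=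
  {t | t ∈ Set.Ioc u v ∧ (R j (Real.exp (a j * t + c j))).Prime}

lemma volume_A (a : ℕ → ℕ) (c : ℕ → ℝ) (u v : ℝ) (j : ℕ) :
    volume (A a c u v j) = ENNReal.ofReal (∫ τ in Set.Ioc u v,
      fl one' (2 ^ j) (a j * τ + c j)) := by
  set f : ℝ → ℝ := fun τ => fl one' (2 ^ j) (a j * τ + c j) with hf
  have hmeas : Measurable f :=
    (Pool.Agent.H447R2.ML.measurable_fl one' (2 ^ j)).comp
      ((measurable_const_mul _).add_const _)
  have hint : IntegrableOn f (Set.Ioc u v) := by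
    refine Measure.integrableOn_of_bounded (M := 1) (by simp) hmeas.aestronglyMeasurable ?_
    exact Eventually.of_forall fun t => by
      rw [Real.norm_eq_abs, abs_of_nonneg (Pool.Agent.H447R2.ML.fl_nonneg _ _ _)]
      exact Pool.Agent.H447R2.ML.fl_le_one _ _ _
  have hA : A a c u v j = {τ | f τ = 1} ∩ Set.Ioc u v := by
    ext τ
    simp only [A, Set.mem_ofPred_eq, Set.mem_inter_iff]
    rw [prime_iff, and_comm]
  rw [ofReal_integral_eq_lintegral_ofReal hint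
    (Eventually.of_forall fun b => Pool.Agent.H447R2.ML.fl_nonneg _ _ _), hA]
  have hms : MeasurableSet {τ | f τ = 1} := hmeas (measurableSet_singleton 1)
  rw [← Measure.restrict_apply hms, ← lintegral_indicator_one hms]
  refine lintegral_congr fun b => ?_
  by_cases hb : b ∈ {τ | f τ = 1}
  · rw [Set.indicator_of_mem hb]
    have : f b = 1 := hb
    rw [this]
    simp
  · rw [Set.indicator_of_notMem hb]
    have h2 : f b ≠ 1 := hb
    have h3 : f b = 0 := by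
      rw [hf] at h2 ⊢
      simp only [fl] at h2 ⊢
      split_ifs at h2 ⊢ with h
      · exact absurd rfl h2
      · rfl
    rw [h3]
    simp

lemma tendsto_two_pow : Tendsto (fun m : ℕ => 2 ^ m) atTop atTop :=
  tendsto_pow_atTop_atTop_of_one_lt one_lt_two

lemma log_two_pow (m : ℕ) : Real.log ((2 ^ m : ℕ) : ℝ) = m * Real.log 2 := by
  rw [Nat.cast_pow, Real.log_pow]; norm_num

/-- bound for one term -/
lemma one_term (a : ℕ → ℕ) (ha : ∀ j, 1 ≤ a j) (c : ℕ → ℝ) (L : ℝ)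
    (hc : ∀ᶠ j : ℕ in atTop, (2 : ℝ) ^ j + 1 ≤ a j * (-L) + c j) :
    ∃ C : ℝ, 0 < C ∧ ∀ u v : ℝ, -L ≤ u → u ≤ v → ∀ m : ℕ, 1 ≤ m →
      volume (A a c u v m) ≤ ENNReal.ofReal (C * ((v - u) + 1 / 2 ^ m) * (m / 2 ^ m)) := by
  obtain ⟨K, hK, hev⟩ := Pool.Agent.H447R2.ML.bounds good (c := 1) one_pos
  obtain ⟨m0, hm0⟩ := eventually_atTop.1 ((tendsto_two_pow.eventually hev).and hc)
  refine ⟨K + 2 ^ m0, by positivity, fun u v hu huv m hm => ?_⟩
  have hm' : (1 : ℝ) ≤ m := by exact_mod_cast hm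
  have h2m : (0 : ℝ) < 2 ^ m := by positivity
  have h4m : (0 : ℝ) < 1 / 2 ^ m := by positivity
  have hd : 0 ≤ v - u := by linarith
  rcases lt_or_ge m m0 with hlt | hge
  · have h1 : volume (A a c u v m) ≤ volume (Set.Ioc u v) :=
      measure_mono fun b hb => hb.1
    refine h1.trans ?_
    rw [Real.volume_Ioc]
    refine ENNReal.ofReal_le_ofReal ?_
    have h3 : (2 : ℝ) ^ m ≤ 2 ^ m0 := pow_le_pow_right₀ (by norm_num) hlt.le
    have h4 : (1 : ℝ) ≤ 2 ^ m0 * (m / 2 ^ m) := by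
      rw [← mul_div_assoc, le_div_iff₀ h2m]
      nlinarith
    have h5 : 0 ≤ K * ((v - u) + 1 / 2 ^ m) * (m / 2 ^ m : ℝ) := by positivity
    calc v - u = (v - u) * 1 := (mul_one _).symm
      _ ≤ ((v - u) + 1 / 2 ^ m) * (2 ^ m0 * (m / 2 ^ m)) := by
          refine mul_le_mul (by linarith) h4 zero_le_one (by linarith)
      _ ≤ (K + 2 ^ m0) * ((v - u) + 1 / 2 ^ m) * (m / 2 ^ m) := by nlinarith
  · obtain ⟨hb, hg⟩ := hm0 m hge
    rw [volume_A]
    refine ENNReal.ofReal_le_ofReal ?_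
    have e5 : ((2 ^ m : ℕ) : ℝ) = 2 ^ m := by push_cast; rfl
    have ha1 : (1 : ℝ) ≤ a m := by exact_mod_cast ha m
    have ha0 : (0 : ℝ) < a m := by linarith
    rw [scale huv (ha m)]
    have h6 : 1 * ((2 ^ m : ℕ) : ℝ) + 1 ≤ (a m : ℝ) * u + c m := by
      rw [e5]
      nlinarith
    have h6' : (a m : ℝ) * u + c m ≤ (a m : ℝ) * v + c m := by nlinarith
    have h7 := hb.2.1 _ _ h6 h6'
    rw [log_two_pow, e5] at h7
    have h10 : Real.log 2 ≤ 1 := by
      have := Real.log_two_lt_d9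
      linarith
    have h12 : 0 ≤ Real.log 2 := (Real.log_pos one_lt_two).le
    calc (∫ y in Set.Ioc (a m * u + c m) (a m * v + c m), fl one' (2 ^ m) y) / a m ≤
          (K * ((a m * v + c m - (a m * u + c m)) + 1 / 2 ^ m) *
            (m * Real.log 2 / 2 ^ m)) / a m := by
          gcongr
      _ = K * ((v - u) + 1 / 2 ^ m / a m) * (m / 2 ^ m) * Real.log 2 := by
          field_simp
          ring
      _ ≤ K * ((v - u) + 1 / 2 ^ m) * (m / 2 ^ m) * 1 := by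
          have : 1 / (2 : ℝ) ^ m / a m ≤ 1 / 2 ^ m := div_le_self h4m.le ha1
          gcongr
      _ ≤ (K + 2 ^ m0) * ((v - u) + 1 / 2 ^ m) * (m / 2 ^ m) := by
          have : 0 ≤ (2 : ℝ) ^ m0 * ((v - u) + 1 / 2 ^ m) * (m / 2 ^ m) := by positivity
          nlinarith

/-- the tail sums of `m / 2 ^ m` -/
lemma tail_sum (M : ℕ) :
    HasSum (fun k : ℕ => ((M + k : ℕ) : ℝ) / 2 ^ (M + k)) ((2 * M + 2) / 2 ^ M) := by
  have h1 : HasSum (fun k : ℕ => (1 / 2 : ℝ) ^ k) 2 := by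
    have := hasSum_geometric_of_lt_one (r := (1 / 2 : ℝ)) (by norm_num) (by norm_num)
    norm_num at this
    simpa using this
  have h2 : HasSum (fun k : ℕ => (k : ℝ) * (1 / 2 : ℝ) ^ k) 2 := by
    have := hasSum_coe_mul_geometric_of_norm_lt_one (𝕜 := ℝ) (r := 1 / 2) (by norm_num)
    norm_num at this
    simpa using this
  have h3 := ((h1.mul_left (M : ℝ)).add h2).mul_left ((1 / 2 : ℝ) ^ M)
  have e : (1 / 2 : ℝ) ^ M * (M * 2 + 2) = (2 * M + 2) / 2 ^ M := by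
    rw [div_pow, one_pow]; ring
  rw [e] at h3
  refine h3.congr_fun ?_
  intro k
  rw [pow_add, div_pow, div_pow, one_pow, one_pow]
  push_cast
  field_simp

/-- bound for the tail -/
lemma union_bound (a : ℕ → ℕ) (ha : ∀ j, 1 ≤ a j) (c : ℕ → ℝ) (L : ℝ)
    (hc : ∀ᶠ j : ℕ in atTop, (2 : ℝ) ^ j + 1 ≤ a j * (-L) + c j) :
    ∃ C : ℝ, 0 < C ∧ ∀ u v : ℝ, -L ≤ u → u ≤ v → ∀ M : ℕ, 1 ≤ M →
      volume {t : ℝ | t ∈ Set.Ioc u v ∧
        ∃ m : ℕ, M ≤ m ∧ (R m (Real.exp (a m * t + c m))).Prime} ≤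
        ENNReal.ofReal (C * ((v - u) + 1 / 2 ^ M) * (M / 2 ^ M)) := by
  obtain ⟨C, hC, h⟩ := one_term a ha c L hc
  refine ⟨4 * C, by positivity, fun u v hu huv M hM => ?_⟩
  have hM' : (1 : ℝ) ≤ M := by exact_mod_cast hM
  have hd : 0 ≤ v - u := by linarith
  have hsub : {t : ℝ | t ∈ Set.Ioc u v ∧
      ∃ m : ℕ, M ≤ m ∧ (R m (Real.exp (a m * t + c m))).Prime} ⊆
      ⋃ k : ℕ, A a c u v (M + k) := by
    rintro b ⟨hb, m, hm, hp⟩
    refine Set.mem_iUnion.2 ⟨m - M, hb, ?_⟩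
    rwa [Nat.add_sub_cancel' hm]
  refine (measure_mono hsub).trans ((measure_iUnion_le _).trans ?_)
  set D := C * ((v - u) + 1 / 2 ^ M) with hD
  have hD0 : 0 ≤ D := by positivity
  have hs := (tail_sum M).mul_left D
  calc ∑' k : ℕ, volume (A a c u v (M + k)) ≤
        ∑' k : ℕ, ENNReal.ofReal (D * (((M + k : ℕ) : ℝ) / 2 ^ (M + k))) := by
        refine ENNReal.tsum_le_tsum fun k => (h u v hu huv (M + k) (by omega)).trans ?_
        refine ENNReal.ofReal_le_ofReal ?_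
        refine mul_le_mul_of_nonneg_right ?_ (by positivity)
        refine mul_le_mul_of_nonneg_left ?_ hC.le
        have : (1 : ℝ) / 2 ^ (M + k) ≤ 1 / 2 ^ M := by
          refine one_div_le_one_div_of_le (by positivity) ?_
          exact pow_le_pow_right₀ (by norm_num) (by omega)
        linarith
    _ = ENNReal.ofReal (∑' k : ℕ, D * (((M + k : ℕ) : ℝ) / 2 ^ (M + k))) := by
        rw [ENNReal.ofReal_tsum_of_nonneg (fun k => by positivity) hs.summable]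
    _ = ENNReal.ofReal (D * ((2 * M + 2) / 2 ^ M)) := by rw [hs.tsum_eq]
    _ ≤ ENNReal.ofReal (4 * C * ((v - u) + 1 / 2 ^ M) * (M / 2 ^ M)) := by
        refine ENNReal.ofReal_le_ofReal ?_
        have h2 : (0 : ℝ) < 2 ^ M := by positivity
        have : (2 * (M : ℝ) + 2) / 2 ^ M ≤ 4 * (M / 2 ^ M) := by
          rw [← mul_div_assoc]
          gcongr
          linarith
        calc D * ((2 * M + 2) / 2 ^ M) ≤ D * (4 * (M / 2 ^ M)) :=
              mul_le_mul_of_nonneg_left this hD0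
          _ = 4 * C * ((v - u) + 1 / 2 ^ M) * (M / 2 ^ M) := by rw [hD]; ring

lemma tendsto_tail (C : ℝ) : Tendsto (fun M : ℕ => ENNReal.ofReal (C * (M / 2 ^ M))) atTop (𝓝 0) := by
  have h1 : Tendsto (fun M : ℕ => (M : ℝ) / 2 ^ M) atTop (𝓝 0) := by
    have := tendsto_pow_const_div_const_pow_of_one_lt 1 (r := (2 : ℝ)) (by norm_num)
    simpa using this
  have h2 := (h1.const_mul C)
  rw [mul_zero] at h2
  have h3 := (ENNReal.continuous_ofReal.tendsto 0).comp h2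
  rw [ENNReal.ofReal_zero] at h3
  exact h3

lemma finite_log (a : ℕ → ℕ) (ha : ∀ j, 1 ≤ a j) (c : ℕ → ℝ)
    (hc : ∀ L : ℝ, ∀ᶠ j : ℕ in atTop, (2 : ℝ) ^ j + 1 ≤ a j * (-L) + c j) :
    ∀ᵐ t : ℝ, {m : ℕ | (R m (Real.exp (a m * t + c m))).Prime}.Finite := by
  have main : ∀ n : ℕ, volume {τ : ℝ | τ ∈ Set.Ioc (-(n : ℝ)) n ∧
      ¬ {m : ℕ | (R m (Real.exp (a m * τ + c m))).Prime}.Finite} = 0 := by
    intro n
    have hn : (0 : ℝ) ≤ n := Nat.cast_nonneg n
    obtain ⟨C, hC, h⟩ := union_bound a ha c n (hc n)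
    set D := C * ((n - -(n : ℝ)) + 1) with hD
    have hle : ∀ M : ℕ, 1 ≤ M → volume {τ : ℝ | τ ∈ Set.Ioc (-(n : ℝ)) n ∧
      ¬ {m : ℕ | (R m (Real.exp (a m * τ + c m))).Prime}.Finite} ≤
        ENNReal.ofReal (D * (M / 2 ^ M)) := by
      intro M hM
      refine (measure_mono ?_).trans ((h (-(n : ℝ)) n le_rfl (by linarith) M hM).trans ?_)
      · rintro b ⟨hb, hinf⟩
        refine ⟨hb, ?_⟩
        by_contra hno
        push Not at hno
        exact hinf ((Set.finite_lt_nat M).subset fun m hm => by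
          by_contra hlt
          exact hno m (by simpa using hlt) hm)
      · refine ENNReal.ofReal_le_ofReal ?_
        refine mul_le_mul_of_nonneg_right ?_ (by positivity)
        refine mul_le_mul_of_nonneg_left ?_ hC.le
        have : (1 : ℝ) / 2 ^ M ≤ 1 := by
          rw [div_le_one (by positivity)]
          exact one_le_pow₀ (by norm_num)
        linarith
    have h0 : volume {τ : ℝ | τ ∈ Set.Ioc (-(n : ℝ)) n ∧
      ¬ {m : ℕ | (R m (Real.exp (a m * τ + c m))).Prime}.Finite} ≤ 0 :=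
      ge_of_tendsto (tendsto_tail D) (eventually_atTop.2 ⟨1, fun M hM => hle M hM⟩)
    exact le_antisymm h0 bot_le
  rw [ae_iff]
  refine measure_mono_null ?_ ((measure_iUnion_null_iff).2 main)
  intro b hb
  obtain ⟨n, hn⟩ := exists_nat_gt |b|
  rw [abs_lt] at hn
  exact Set.mem_iUnion.2 ⟨n, ⟨hn.1, hn.2.le⟩, hb⟩

lemma ae_exp1 {P : ℝ → Prop} (h : ∀ᵐ z : ℝ, P (Real.exp z)) : ∀ᵐ z : ℝ, 0 < z → P z := by
  rw [ae_iff] at h ⊢
  have h1 : volume (Real.exp '' {z : ℝ | ¬ P (Real.exp z)}) = 0 :=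
    addHaar_image_eq_zero_of_differentiableOn_of_addHaar_eq_zero volume
      Real.differentiable_exp.differentiableOn h
  refine measure_mono_null ?_ h1
  intro z hz
  simp only [Set.mem_ofPred_eq, Classical.not_imp] at hz
  refine ⟨Real.log z, ?_, Real.exp_log hz.1⟩
  simp only [Set.mem_ofPred_eq]
  rw [Real.exp_log hz.1]
  exact hz.2

/-- the shift of the logarithm for the family in the base factor -/
noncomputable def c1 (β : ℝ) (j : ℕ) : ℝ := (2 ^ j : ℕ) * (j * Real.log 2) + Real.log β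

/-- the shift of the logarithm for the family in the amplitude -/
noncomputable def c2 (x : ℝ) (j : ℕ) : ℝ := (2 ^ j : ℕ) * (j * Real.log 2 + Real.log x)

lemma W_base {β : ℝ} (hβ : 0 < β) (τ : ℝ) (j : ℕ) :
    W (Real.exp τ) β (2 ^ j) = R j (Real.exp ((2 ^ j : ℕ) * τ + c1 β j)) := by
  have e : Real.exp ((2 ^ j : ℕ) * τ + c1 β j) =
      β * (Real.exp τ * ((2 ^ j : ℕ) : ℝ)) ^ (2 ^ j) := by
    have e1 : ((2 ^ j : ℕ) : ℝ) * τ + c1 β j =
        ((2 ^ j : ℕ) : ℝ) * (τ + Real.log ((2 ^ j : ℕ) : ℝ)) + Real.log β := by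
      rw [log_two_pow, c1]
      ring
    have hpos : (0 : ℝ) < ((2 ^ j : ℕ) : ℝ) := by exact_mod_cast Nat.two_pow_pos j
    rw [e1, Real.exp_add, Real.exp_nat_mul, Real.exp_add, Real.exp_log hpos, Real.exp_log hβ,
      mul_comm]
  rw [e]
  rfl

lemma W_ampl {x : ℝ} (hx : 0 < x) (b : ℝ) (j : ℕ) :
    W x (Real.exp b) (2 ^ j) = R j (Real.exp ((1 : ℕ) * b + c2 x j)) := by
  have e : Real.exp ((1 : ℕ) * b + c2 x j) =
      Real.exp b * (x * ((2 ^ j : ℕ) : ℝ)) ^ (2 ^ j) := by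
    have e1 : ((1 : ℕ) : ℝ) * b + c2 x j =
        b + ((2 ^ j : ℕ) : ℝ) * (Real.log x + Real.log ((2 ^ j : ℕ) : ℝ)) := by
      rw [log_two_pow, c2]
      push_cast
      ring
    have hpos : (0 : ℝ) < ((2 ^ j : ℕ) : ℝ) := by exact_mod_cast Nat.two_pow_pos j
    rw [e1, Real.exp_add, Real.exp_nat_mul, Real.exp_add, Real.exp_log hpos, Real.exp_log hx]
  rw [e]
  rfl

lemma grow (K : ℝ) : ∀ᶠ j : ℕ in atTop, K ≤ (j : ℝ) * Real.log 2 :=
  (tendsto_natCast_atTop_atTop.atTop_mul_const (Real.log_pos one_lt_two)).eventually_ge_atTop K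

lemma hc1 (β L : ℝ) : ∀ᶠ j : ℕ in atTop,
    (2 : ℝ) ^ j + 1 ≤ ((2 ^ j : ℕ) : ℝ) * (-L) + c1 β j := by
  filter_upwards [grow (L + 2 + |Real.log β|)] with j hj
  have e5 : ((2 ^ j : ℕ) : ℝ) = 2 ^ j := by push_cast; rfl
  have h1 : (1 : ℝ) ≤ 2 ^ j := one_le_pow₀ (by norm_num)
  have h2 := neg_abs_le (Real.log β)
  have h3 := abs_nonneg (Real.log β)
  unfold c1
  rw [e5]
  nlinarith

lemma hc2 (x L : ℝ) : ∀ᶠ j : ℕ in atTop,
    (2 : ℝ) ^ j + 1 ≤ ((1 : ℕ) : ℝ) * (-L) + c2 x j := by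
  filter_upwards [grow (|L| + 2 + |Real.log x|)] with j hj
  have e5 : ((2 ^ j : ℕ) : ℝ) = 2 ^ j := by push_cast; rfl
  have h1 : (1 : ℝ) ≤ 2 ^ j := one_le_pow₀ (by norm_num)
  have h2 := neg_abs_le (Real.log x)
  have h3 := abs_nonneg (Real.log x)
  have h4 := le_abs_self L
  have h5 := abs_nonneg L
  unfold c2
  rw [e5]
  push_cast
  nlinarith

/-- Metric finiteness of the primes `n ^ n + 1`. -/
theorem result :
    (∀ j : ℕ, 1 ≤ j → W 1 1 (2 ^ j) = (2 ^ j) ^ (2 ^ j) + 1) ∧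
    (∀ β : ℝ, 0 < β → ∀ L : ℝ, ∃ C : ℝ, 0 < C ∧ ∀ u v : ℝ, -L ≤ u → u ≤ v → ∀ J : ℕ, 1 ≤ J →
      volume {τ : ℝ | τ ∈ Set.Ioc u v ∧ ∃ j : ℕ, J ≤ j ∧ (W (Real.exp τ) β (2 ^ j)).Prime} ≤
        ENNReal.ofReal (C * ((v - u) + 1 / 2 ^ J) * (J / 2 ^ J))) ∧
    (∀ x : ℝ, 0 < x → ∀ L : ℝ, ∃ C : ℝ, 0 < C ∧ ∀ u v : ℝ, -L ≤ u → u ≤ v → ∀ J : ℕ, 1 ≤ J →
      volume {b : ℝ | b ∈ Set.Ioc u v ∧ ∃ j : ℕ, J ≤ j ∧ (W x (Real.exp b) (2 ^ j)).Prime} ≤
        ENNReal.ofReal (C * ((v - u) + 1 / 2 ^ J) * (J / 2 ^ J))) ∧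
    (∀ β : ℝ, 0 < β → ∀ᵐ x : ℝ, 0 < x → {j : ℕ | (W x β (2 ^ j)).Prime}.Finite) ∧
    (∀ x : ℝ, 0 < x → ∀ᵐ β : ℝ, 0 < β → {j : ℕ | (W x β (2 ^ j)).Prime}.Finite) := by
  refine ⟨W_one, fun β hβ L => ?_, fun x hx L => ?_, fun β hβ => ?_, fun x hx => ?_⟩
  · obtain ⟨C, hC, h⟩ := union_bound (fun j => 2 ^ j) (fun j => Nat.two_pow_pos j) (c1 β) L
      (hc1 β L)
    refine ⟨C, hC, fun u v hu huv J hJ => ?_⟩
    simp only [W_base hβ]
    exact h u v hu huv J hJ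
  · obtain ⟨C, hC, h⟩ := union_bound (fun _ => 1) (fun _ => le_rfl) (c2 x) L (hc2 x L)
    refine ⟨C, hC, fun u v hu huv J hJ => ?_⟩
    simp only [W_ampl hx]
    exact h u v hu huv J hJ
  · refine ae_exp1 ?_
    simp only [W_base hβ]
    exact finite_log (fun j => 2 ^ j) (fun j => Nat.two_pow_pos j) (c1 β) (hc1 β)
  · refine ae_exp1 ?_
    simp only [W_ampl hx]
    exact finite_log (fun _ => 1) (fun _ => le_rfl) (c2 x) (hc2 x)

end Pool.Agent.Results.MP_a70bdc_nt.MetricFiniteness
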